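import Pool.Agent.W394.BQN.Stm

/-!
# The dimension of the local ring at the origin of `ℤ_p[z, x_0, ..., x_n]/(x_0 ⋯ x_n - (z^e - p))`
-/

set_option autoImplicit false

open Polynomial IsLocalRing

noncomputable section

namespace Pool.Agent.W479.BQN

open Pool.Agent.W394.BQN BQ

section General

variable {V : Type} [CommRing V] (u : V) (n : ℕ)

/-- the variables `x_i` -/
def xx (i : Fin (n + 1)) : Semi V u n := Q.pr V u n (MvPolynomial.X i)

/-- killing the variables `x_j`, `j < i` -/
def kill (i : ℕ) (j : Fin (n + 1)) : MvPolynomial (Fin (n + 1)) (V ⧸ Ideal.span {u}) :=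
  if (j : ℕ) < i then 0 else MvPolynomial.X j

/-- the map `Semi → (V/u)[x_0,...,x_n]` with `x_j ↦ 0` for `j ≤ i` -/
def φ (i : ℕ) : Semi V u n →+* MvPolynomial (Fin (n + 1)) (V ⧸ Ideal.span {u}) :=
  Q.lft V u n (MvPolynomial.C.comp (Ideal.Quotient.mk (Ideal.span {u}))) (kill u n (i + 1)) (by
    rw [Finset.prod_eq_zero (Finset.mem_univ (0 : Fin (n + 1)))]
    · have h : Ideal.Quotient.mk (Ideal.span {u}) u = 0 :=
        Ideal.Quotient.eq_zero_iff_mem.2 (Ideal.mem_span_singleton_self u)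
      simp [h]
    · simp [kill])

theorem φ_xx (i : ℕ) (j : Fin (n + 1)) : φ u n i (xx u n j) = kill u n (i + 1) j :=
  Q.lft_X V u n _ _ _ j

theorem φ_C (i : ℕ) (v : V) : φ u n i (Q.pr V u n (MvPolynomial.C v)) =
    MvPolynomial.C (Ideal.Quotient.mk (Ideal.span {u}) v) :=
  Q.lft_C V u n _ _ _ v

theorem prod_xx : ∏ i, xx u n i = Q.pr V u n (MvPolynomial.C u) := Q.pr_prod V u n

theorem quot_domain (hu : Prime u) : IsDomain (V ⧸ Ideal.span {u}) := by
  have : (Ideal.span {u}).IsPrime := (Ideal.span_singleton_prime hu.ne_zero).2 hu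
  infer_instance

theorem φ_prime (hu : Prime u) (i : ℕ) : (RingHom.ker (φ u n i)).IsPrime := by
  have := quot_domain u hu
  exact RingHom.ker_isPrime _

theorem φ_lt (hu : Prime u) (i : ℕ) (hi : i < n) :
    RingHom.ker (φ u n i) < RingHom.ker (φ u n (i + 1)) := by
  have hdom := quot_domain u hu
  refine lt_of_le_of_ne ?_ ?_
  · let ψ : MvPolynomial (Fin (n + 1)) (V ⧸ Ideal.span {u}) →+*
        MvPolynomial (Fin (n + 1)) (V ⧸ Ideal.span {u}) :=
      MvPolynomial.eval₂Hom MvPolynomial.C (kill u n (i + 2))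
    have h : ψ.comp (φ u n i) = φ u n (i + 1) := by
      apply Q.hext
      · intro v
        show ψ (φ u n i (Q.pr V u n (MvPolynomial.C v))) = _
        rw [φ_C, φ_C]
        simp [ψ]
      · intro j
        show ψ (φ u n i (xx u n j)) = φ u n (i + 1) (xx u n j)
        rw [φ_xx, φ_xx]
        by_cases h1 : (j : ℕ) < i + 1
        · simp [kill, h1, Nat.lt_succ_of_lt h1]
        · rw [kill, if_neg h1]
          simp only [ψ, MvPolynomial.coe_eval₂Hom, MvPolynomial.eval₂_X]
    intro a ha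
    rw [RingHom.mem_ker] at ha ⊢
    rw [← h, RingHom.comp_apply, ha, map_zero]
  · intro h
    have h1 : xx u n ⟨i + 1, by omega⟩ ∈ RingHom.ker (φ u n (i + 1)) := by
      rw [RingHom.mem_ker, φ_xx]
      simp [kill]
    rw [← h, RingHom.mem_ker, φ_xx] at h1
    have h2 : ¬ ((⟨i + 1, by omega⟩ : Fin (n + 1)) : ℕ) < i + 1 := by simp
    rw [kill, if_neg h2] at h1
    exact MvPolynomial.X_ne_zero _ h1

/-- a retraction of `Semi` to `V` -/
def ret : Semi V u n →+* V :=
  Q.lft V u n (RingHom.id V) (fun i => if i = 0 then u else 1)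
    (by rw [Finset.prod_ite_eq' Finset.univ (0 : Fin (n + 1)) (fun _ => u)]; simp)

theorem ret_C (v : V) : ret u n (Q.pr V u n (MvPolynomial.C v)) = v := Q.lft_C V u n _ _ _ v

theorem height_ge [IsDomain V] (hu : Prime u) (i : ℕ) (hi : i ≤ n) :
    ((i + 1 : ℕ) : ℕ∞) ≤ (RingHom.ker (φ u n i)).height := by
  have hdom : IsDomain (Semi V u n) := semi_isDomain u hu n
  induction i with
  | zero =>
    have hpr := φ_prime u n hu 0
    have hlt : (⊥ : Ideal (Semi V u n)) < RingHom.ker (φ u n 0) := by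
      refine lt_of_le_of_ne bot_le ?_
      intro h
      have h1 : xx u n 0 ∈ RingHom.ker (φ u n 0) := by
        rw [RingHom.mem_ker, φ_xx]
        simp [kill]
      rw [← h, Ideal.mem_bot] at h1
      have h2 := prod_xx u n
      rw [Finset.prod_eq_zero (Finset.mem_univ (0 : Fin (n + 1))) h1] at h2
      have h3 := ret_C u n u
      rw [← h2, map_zero] at h3
      exact hu.ne_zero h3.symm
    have h1 := Ideal.height_add_one_le_of_lt_of_isPrime hlt
    refine le_trans ?_ h1
    simp
  | succ i ih =>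
    have hpr := φ_prime u n hu i
    have hpr' := φ_prime u n hu (i + 1)
    have h1 := Ideal.height_add_one_le_of_lt_of_isPrime (φ_lt u n hu i (by omega))
    refine le_trans ?_ h1
    have h2 := ih (by omega)
    push_cast at h2 ⊢
    exact add_le_add h2 le_rfl

variable {k : Type} [Field k] (ψ : V →+* k) (hψ : ψ u = 0)

/-- the map to the residue field at the origin -/
def Φ : Semi V u n →+* k := Q.lft V u n ψ (fun _ => 0) (by
  rw [hψ]
  simp)

theorem Φ_xx (j : Fin (n + 1)) : Φ u n ψ hψ (xx u n j) = 0 := Q.lft_X V u n _ _ _ j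

theorem Φ_C (v : V) : Φ u n ψ hψ (Q.pr V u n (MvPolynomial.C v)) = ψ v := Q.lft_C V u n _ _ _ v

theorem φ_lt_Φ (z : V) (hz : ψ z = 0) (hz' : ¬ u ∣ z) :
    RingHom.ker (φ u n n) < RingHom.ker (Φ u n ψ hψ) := by
  refine lt_of_le_of_ne ?_ ?_
  · have hle : Ideal.span {u} ≤ RingHom.ker ψ := by
      rw [Ideal.span_le, Set.singleton_subset_iff]
      exact hψ
    let ψ' : (V ⧸ Ideal.span {u}) →+* k := Ideal.Quotient.lift (Ideal.span {u}) ψ
      (fun a ha => hle ha)
    let χ : MvPolynomial (Fin (n + 1)) (V ⧸ Ideal.span {u}) →+* k :=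
      MvPolynomial.eval₂Hom ψ' (fun _ => 0)
    have h : χ.comp (φ u n n) = Φ u n ψ hψ := by
      apply Q.hext
      · intro v
        show χ (φ u n n (Q.pr V u n (MvPolynomial.C v))) = _
        rw [φ_C, Φ_C]
        simp only [χ, ψ', MvPolynomial.coe_eval₂Hom, MvPolynomial.eval₂_C]
        exact Ideal.Quotient.lift_mk _ _ _
      · intro j
        show χ (φ u n n (xx u n j)) = Φ u n ψ hψ (xx u n j)
        rw [φ_xx, Φ_xx]
        have : (j : ℕ) < n + 1 := j.2
        simp [kill, this]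
    intro a ha
    rw [RingHom.mem_ker] at ha ⊢
    rw [← h, RingHom.comp_apply, ha, map_zero]
  · intro h
    have h1 : Q.pr V u n (MvPolynomial.C z) ∈ RingHom.ker (Φ u n ψ hψ) := by
      rw [RingHom.mem_ker, Φ_C, hz]
    rw [← h, RingHom.mem_ker, φ_C] at h1
    have h2 : Ideal.Quotient.mk (Ideal.span {u}) z = 0 :=
      MvPolynomial.C_injective _ _ (by rw [h1, map_zero])
    exact hz' (Ideal.mem_span_singleton.1 (Ideal.Quotient.eq_zero_iff_mem.1 h2))

theorem height_Φ_ge [IsDomain V] (hu : Prime u) (z : V) (hz : ψ z = 0) (hz' : ¬ u ∣ z) :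
    ((n + 2 : ℕ) : ℕ∞) ≤ (RingHom.ker (Φ u n ψ hψ)).height := by
  have hpr := φ_prime u n hu n
  have hpr' : (RingHom.ker (Φ u n ψ hψ)).IsPrime := RingHom.ker_isPrime _
  have h1 := Ideal.height_add_one_le_of_lt_of_isPrime (φ_lt_Φ u n ψ hψ z hz hz')
  refine le_trans ?_ h1
  have h2 := height_ge u n hu n le_rfl
  push_cast at h2 ⊢
  refine le_trans (le_of_eq ?_) (add_le_add h2 le_rfl)
  rw [add_assoc]
  norm_num

theorem ker_Φ_eq (z : V)
    (hV : ∀ v : V, ψ v = 0 → Q.pr V u n (MvPolynomial.C v) ∈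
      Ideal.span (Set.range (xx u n) ∪ {Q.pr V u n (MvPolynomial.C z)})) (hz : ψ z = 0) :
    RingHom.ker (Φ u n ψ hψ) =
      Ideal.span (Set.range (xx u n) ∪ {Q.pr V u n (MvPolynomial.C z)}) := by
  have hle : Ideal.span (Set.range (xx u n) ∪ {Q.pr V u n (MvPolynomial.C z)}) ≤
      RingHom.ker (Φ u n ψ hψ) := by
    rw [Ideal.span_le]
    rintro _ (⟨j, rfl⟩ | h)
    · exact Φ_xx u n ψ hψ j
    · rw [Set.mem_singleton_iff] at h
      rw [h]
      show Φ u n ψ hψ _ = 0
      rw [Φ_C, hz]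
  apply le_antisymm
  · intro a ha
    obtain ⟨f, rfl⟩ : ∃ f, Q.pr V u n f = a := Ideal.Quotient.mk_surjective a
    -- modulo the span, `f` is its constant coefficient
    have h1 : ∀ f : MvPolynomial (Fin (n + 1)) V,
        Q.pr V u n f - Q.pr V u n (MvPolynomial.C (MvPolynomial.constantCoeff f)) ∈
          Ideal.span (Set.range (xx u n) ∪ {Q.pr V u n (MvPolynomial.C z)}) := by
      intro f
      induction f using MvPolynomial.induction_on with
      | C a => simp
      | add f g hf hg =>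
        have := Ideal.add_mem _ hf hg
        have e : Q.pr V u n (f + g) -
            Q.pr V u n (MvPolynomial.C (MvPolynomial.constantCoeff (f + g))) =
          (Q.pr V u n f - Q.pr V u n (MvPolynomial.C (MvPolynomial.constantCoeff f))) +
          (Q.pr V u n g -
            Q.pr V u n (MvPolynomial.C (MvPolynomial.constantCoeff g))) := by
          simp only [map_add]; ring
        rw [e]
        exact this
      | mul_X f i hf =>
        simp only [map_mul, MvPolynomial.constantCoeff_X, mul_zero, map_zero, sub_zero]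
        exact Ideal.mul_mem_left _ _ (Ideal.subset_span (Or.inl ⟨i, rfl⟩))
    have h2 := h1 f
    have h3 : Φ u n ψ hψ (Q.pr V u n (MvPolynomial.C (MvPolynomial.constantCoeff f))) = 0 := by
      have h4 := hle h2
      have h5 := Ideal.sub_mem _ ha h4
      rw [sub_sub_cancel] at h5
      exact h5
    rw [Φ_C] at h3
    have h6 := hV _ h3
    have h8 := Ideal.add_mem _ h2 h6
    rw [sub_add_cancel] at h8
    exact h8
  · exact hle

end General

/-! ### the case at hand -/

section Special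

variable (p : ℕ) [hp : Fact p.Prime] (e : ℕ) (n : ℕ)

/-- the element `z^e - p` -/
abbrev uu : ℤ_[p][X] := X ^ e - C (p : ℤ_[p])

theorem uu_prime (he : 0 < e) : Prime (uu p e) := by
  have hpp : Prime (p : ℤ_[p]) := PadicInt.prime_p
  have hmonic : (uu p e).Monic := monic_X_pow_sub_C _ he.ne'
  have hdeg : (uu p e).natDegree = e := natDegree_X_pow_sub_C
  have heis : (uu p e).IsEisensteinAt (Ideal.span {(p : ℤ_[p])}) := by
    refine ⟨?_, ?_, ?_⟩
    · rw [hmonic.leadingCoeff]
      intro h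
      rw [Ideal.mem_span_singleton] at h
      exact hpp.not_isUnit (isUnit_of_dvd_one h)
    · intro m hm
      rw [hdeg] at hm
      rw [uu, coeff_sub, coeff_X_pow, if_neg hm.ne, coeff_C, zero_sub]
      split_ifs with h0
      · exact neg_mem (Ideal.mem_span_singleton_self _)
      · simp
    · rw [uu, coeff_sub, coeff_X_pow, if_neg he.ne, coeff_C_zero, zero_sub, neg_mem_iff,
        Ideal.span_singleton_pow, Ideal.mem_span_singleton, pow_two]
      intro h
      obtain ⟨c, hc⟩ := h
      have h1 : (p : ℤ_[p]) * 1 = (p : ℤ_[p]) * (p * c) := by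
        rw [mul_one, ← mul_assoc]; exact hc
      have h2 := mul_left_cancel₀ hpp.ne_zero h1
      exact hpp.not_isUnit (isUnit_of_dvd_one ⟨c, h2⟩)
  have hI : (Ideal.span {(p : ℤ_[p])}).IsPrime :=
    (Ideal.span_singleton_prime hpp.ne_zero).2 hpp
  have hirr : Irreducible (uu p e) :=
    heis.irreducible hI hmonic.isPrimitive (by rw [hdeg]; exact he)
  exact hirr.prime

/-- the map to the residue field -/
def ψ : ℤ_[p][X] →+* ZMod p := (PadicInt.toZMod (p := p)).comp (Polynomial.evalRingHom 0)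

theorem ψ_apply (f : ℤ_[p][X]) : ψ p f = PadicInt.toZMod (f.coeff 0) := by
  show PadicInt.toZMod (Polynomial.eval 0 f) = _
  rw [Polynomial.coeff_zero_eq_eval_zero]

theorem ψ_X : ψ p X = 0 := by
  rw [ψ_apply]
  simp

theorem ψ_uu (he : 0 < e) : ψ p (uu p e) = 0 := by
  rw [ψ_apply, uu, coeff_sub, coeff_X_pow, if_neg he.ne, coeff_C_zero, zero_sub, map_neg,
    map_natCast]
  simp

theorem not_dvd_X (he : 0 < e) : ¬ uu p e ∣ X := by
  intro h
  obtain ⟨c, hc⟩ := h
  have hpp : Prime (p : ℤ_[p]) := PadicInt.prime_p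
  -- evaluate at `0`
  have h0 : (uu p e).coeff 0 * c.coeff 0 = 0 := by
    rw [← mul_coeff_zero, ← hc]
    simp
  have h1 : (uu p e).coeff 0 ≠ 0 := by
    rw [uu, coeff_sub, coeff_X_pow, if_neg he.ne, coeff_C_zero, zero_sub]
    exact neg_ne_zero.2 hpp.ne_zero
  have h2 : c.coeff 0 = 0 := (mul_eq_zero.1 h0).resolve_left h1
  -- then `X ∣ c`
  obtain ⟨d, hd⟩ := X_dvd_iff.2 h2
  have h3 : (X : ℤ_[p][X]) * 1 = X * (uu p e * d) := by
    rw [mul_one]
    calc (X : ℤ_[p][X]) = uu p e * c := hc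
      _ = X * (uu p e * d) := by rw [hd]; ring
  have h4 := mul_left_cancel₀ X_ne_zero h3
  exact (uu_prime p e he).not_isUnit (isUnit_of_dvd_one ⟨d, h4⟩)

/-- the coordinate `z` -/
abbrev zz : Semi ℤ_[p][X] (uu p e) n := Q.pr ℤ_[p][X] (uu p e) n (MvPolynomial.C X)

theorem p_eq : (p : Semi ℤ_[p][X] (uu p e) n) = zz p e n ^ e - ∏ i, xx (uu p e) n i := by
  rw [prod_xx, zz, ← map_pow, ← map_pow, ← map_sub, ← map_sub]
  have h : (X ^ e - uu p e : ℤ_[p][X]) = (p : ℤ_[p][X]) := by
    rw [uu, sub_sub_cancel, map_natCast]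
  rw [h, map_natCast, map_natCast]

theorem hV (he : 0 < e) (v : ℤ_[p][X]) (hv : ψ p v = 0) :
    Q.pr ℤ_[p][X] (uu p e) n (MvPolynomial.C v) ∈
      Ideal.span (Set.range (xx (uu p e) n) ∪ {zz p e n}) := by
  rw [ψ_apply] at hv
  have h1 : v.coeff 0 ∈ RingHom.ker (PadicInt.toZMod (p := p)) := hv
  rw [PadicInt.ker_toZMod, PadicInt.maximalIdeal_eq_span_p, Ideal.mem_span_singleton] at h1
  obtain ⟨c, hc⟩ := h1
  have h2 : v = X * v.divX + (p : ℤ_[p][X]) * C c := by
    conv_lhs => rw [← X_mul_divX_add v]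
    rw [hc, map_mul, map_natCast]
  have hz : zz p e n ∈ Ideal.span (Set.range (xx (uu p e) n) ∪ {zz p e n}) :=
    Ideal.subset_span (Or.inr rfl)
  have hp' : (p : Semi ℤ_[p][X] (uu p e) n) ∈
      Ideal.span (Set.range (xx (uu p e) n) ∪ {zz p e n}) := by
    rw [p_eq p e n]
    refine Ideal.sub_mem _ (Ideal.pow_mem_of_mem _ hz e he) ?_
    exact Ideal.mem_of_dvd _
      (Finset.dvd_prod_of_mem (xx (uu p e) n) (Finset.mem_univ (0 : Fin (n + 1))))
      (Ideal.subset_span (Or.inl ⟨0, rfl⟩))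
  rw [h2, map_add, map_add, map_mul, map_mul, map_mul, map_mul, map_natCast, map_natCast]
  exact Ideal.add_mem _ (Ideal.mul_mem_right _ _ hz) (Ideal.mul_mem_right _ _ hp')

end Special

theorem loc_aux {D : Type} [CommRing D] [IsDomain D] [CharZero D] (q : Ideal D) [q.IsPrime]
    (n e p : ℕ) (x : Fin (n + 1) → D) (z : D) (hq : q = Ideal.span (Set.range x ∪ {z}))
    (hh : q.height = ((n + 2 : ℕ) : ℕ∞)) (hp : (p : D) = z ^ e - ∏ i, x i) :
    CharZero (Localization.AtPrime q) ∧
    ringKrullDim (Localization.AtPrime q) = ((n + 2 : ℕ) : WithBot ℕ∞) ∧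
    ∃ (x : Fin (n + 1) → Localization.AtPrime q) (z : Localization.AtPrime q),
      IsLocalRing.maximalIdeal (Localization.AtPrime q) = Ideal.span (Set.range x ∪ {z}) ∧
      (p : Localization.AtPrime q) = z ^ e - ∏ i, x i := by
  refine ⟨charZero_loc q, ?_, fun i => algebraMap D (Localization.AtPrime q) (x i),
    algebraMap D (Localization.AtPrime q) z, ?_, ?_⟩
  · rw [IsLocalization.AtPrime.ringKrullDim_eq_height q (Localization.AtPrime q), hh]
    rfl
  · rw [← Localization.AtPrime.map_eq_maximalIdeal]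
    have h1 : Ideal.map (algebraMap D (Localization.AtPrime q)) q =
        Ideal.map (algebraMap D (Localization.AtPrime q)) (Ideal.span (Set.range x ∪ {z})) :=
      congrArg (fun I : Ideal D => Ideal.map (algebraMap D (Localization.AtPrime q)) I) hq
    rw [h1, Ideal.map_span, Set.image_union, Set.image_singleton, ← Set.range_comp]
    rfl
  · rw [← map_pow, ← map_prod, ← map_sub, ← hp, map_natCast]

theorem t_DIM : S_DIM := by
  intro p hp e he n
  have hu := uu_prime p e he
  have hψ := ψ_uu p e he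
  have hdom : IsDomain (Semi ℤ_[p][X] (uu p e) n) := semi_isDomain (uu p e) hu n
  have h0 : CharZero (Semi ℤ_[p][X] (uu p e) n) := by
    refine ⟨fun a b h => ?_⟩
    have h1 := congrArg (ret (uu p e) n) h
    rw [map_natCast, map_natCast] at h1
    exact Nat.cast_injective h1
  have hker := ker_Φ_eq (uu p e) n (ψ p) hψ X (hV p e n he) (ψ_X p)
  have hprime : (RingHom.ker (Φ (uu p e) n (ψ p) hψ)).IsPrime := RingHom.ker_isPrime _
  have hheight : (RingHom.ker (Φ (uu p e) n (ψ p) hψ)).height = ((n + 2 : ℕ) : ℕ∞) := by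
    apply le_antisymm
    · refine le_trans (Ideal.height_le_spanFinrank _ hprime.ne_top) ?_
      have hfin : (Set.range (xx (uu p e) n) ∪ {zz p e n}).Finite :=
        (Set.finite_range _).union (Set.finite_singleton _)
      have h1 := Submodule.spanFinrank_span_le_ncard_of_finite
        (R := Semi ℤ_[p][X] (uu p e) n)
        (s := Set.range (xx (uu p e) n) ∪ {zz p e n}) hfin
      have h2 : (Set.range (xx (uu p e) n)).ncard ≤ n + 1 := by
        have h3 := Set.ncard_image_le (f := xx (uu p e) n) (s := Set.univ) Set.finite_univ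
        rw [Set.image_univ, Set.ncard_univ, Nat.card_eq_fintype_card, Fintype.card_fin] at h3
        exact h3
      have h3 := Set.ncard_union_le (Set.range (xx (uu p e) n)) {zz p e n}
      rw [Set.ncard_singleton] at h3
      rw [hker]
      exact_mod_cast le_trans h1 (le_trans h3 (by omega))
    · exact height_Φ_ge (uu p e) n (ψ p) hψ hu X (ψ_X p) (not_dvd_X p e he)
  exact ⟨RingHom.ker (Φ (uu p e) n (ψ p) hψ), hprime,
    loc_aux (RingHom.ker (Φ (uu p e) n (ψ p) hψ)) n e p (xx (uu p e) n) (zz p e n) hker hheight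
      (p_eq p e n)⟩

end Pool.Agent.W479.BQN
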